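import Mathlib
import Pool.Agent.H14.Cat7

set_option autoImplicit false
open Finset Pool.Agent.H14.Cat

namespace Pool.Agent.Results.MP_261b1b_mp.Full

/-- Majorization `x ≺ y` of probability vectors: for every `k`, any `k` entries of `x` sum to at
most the sum of some at most `k` entries of `y` (so the `k` largest entries of `x` sum to at most
the `k` largest entries of `y` after padding with zeros). -/
def Majorized {ι κ : Type} [Fintype ι] [Fintype κ] (x : ι → ℝ) (y : κ → ℝ) : Prop :=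
  ∀ S : Finset ι, ∃ T : Finset κ, T.card ≤ S.card ∧ ∑ i ∈ S, x i ≤ ∑ j ∈ T, y j

/-- Standard catalysis. -/
def CatLOCC {d e : ℕ} (ψ : Fin d → ℝ) (φ : Fin e → ℝ) : Prop :=
  ∃ (n : ℕ) (η : Fin n → ℝ), Prob η ∧ Majorized (tens ψ η) (tens φ η)

/-- Flexible catalysis by some nonempty, possibly infinite, set of catalysts. -/
def FlexLOCC {d e : ℕ} (ψ : Fin d → ℝ) (φ : Fin e → ℝ) : Prop :=
  ∃ S : Set (Σ n : ℕ, Fin n → ℝ), S.Nonempty ∧ (∀ η ∈ S, Prob η.2) ∧
    ∀ η ∈ S, ∃ η' ∈ S, Majorized (tens ψ η.2) (tens φ η'.2)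

variable {ι κ : Type} [Fintype ι] [Fintype κ]

lemma maj_of {x : ι → ℝ} {y : κ → ℝ} (hx : Prob x) (hy : Prob y) (h : Majorized x y) : Maj x y := by
  classical
  refine hinge hx hy fun t ht => ?_
  obtain ⟨T, h1, h2⟩ := h (univ.filter fun i => t < x i)
  have e1 : ∑ i, max (x i - t) 0 = ∑ i ∈ univ.filter fun i => t < x i, (x i - t) := by
    rw [sum_filter]
    refine sum_congr rfl fun i _ => ?_
    split_ifs with h
    · exact max_eq_left (by linarith)
    · exact max_eq_right (by linarith [not_lt.1 h])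
  have e2 : ∑ j ∈ T, (y j - t) ≤ ∑ j, max (y j - t) 0 :=
    (sum_le_sum fun j _ => le_max_left _ _).trans
      (sum_le_sum_of_subset_of_nonneg (subset_univ _) fun j _ _ => le_max_right _ _)
  rw [e1]
  simp only [sum_sub_distrib, sum_const, nsmul_eq_mul] at e2 ⊢
  have : (T.card : ℝ) * t ≤ (univ.filter fun i => t < x i).card * t :=
    mul_le_mul_of_nonneg_right (by exact_mod_cast h1) ht.le
  linarith

lemma of_maj {x : ι → ℝ} {y : κ → ℝ} (hx : Prob x) (hy : Prob y) (h : Maj x y) : Majorized x y := by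
  classical
  intro S
  by_cases hk : Fintype.card κ ≤ S.card
  · refine ⟨univ, hk, ?_⟩
    rw [hy.2, ← hx.2]
    exact sum_le_sum_of_subset_of_nonneg (subset_univ _) fun j _ _ => hx.1 j
  rcases S.eq_empty_or_nonempty with rfl | hS
  · exact ⟨∅, by simp, by simp⟩
  obtain ⟨T, hT, hm⟩ := exists_max_image (powersetCard S.card (univ : Finset κ))
    (fun T => ∑ j ∈ T, y j) (powersetCard_nonempty.2 (by rw [card_univ]; omega))
  have hc : T.card = S.card := (mem_powersetCard.1 hT).2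
  obtain ⟨i0, hi0, hmin⟩ := exists_min_image T y (card_pos.1 (by rw [hc]; exact card_pos.2 hS))
  have out : ∀ j, j ∉ T → y j ≤ y i0 := by
    intro j hj
    have hj' : j ∉ T.erase i0 := fun h => hj (mem_of_mem_erase h)
    have := hm (insert j (T.erase i0)) (mem_powersetCard.2 ⟨subset_univ _, by
      rw [card_insert_of_notMem hj', card_erase_add_one hi0, hc]⟩)
    rw [sum_insert hj', ← add_sum_erase T y hi0] at this
    linarith
  refine ⟨T, hc.le, ?_⟩
  have := h (fun v => max (v - y i0) 0) (by fun_prop) ?_ (by simp [hy.1 i0])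
  · have e1 : ∑ j, max (y j - y i0) 0 = ∑ j ∈ T, (y j - y i0) := by
      rw [← sum_subset (subset_univ T) fun j _ hj => max_eq_right (sub_nonpos.2 (out j hj))]
      exact sum_congr rfl fun j hj => max_eq_left (sub_nonneg.2 (hmin j hj))
    have e2 : ∑ i ∈ S, (x i - y i0) ≤ ∑ i, max (x i - y i0) 0 :=
      (sum_le_sum fun j _ => le_max_left _ _).trans
        (sum_le_sum_of_subset_of_nonneg (subset_univ _) fun j _ _ => le_max_right _ _)
    rw [e1] at this
    simp only [sum_sub_distrib, sum_const, hc] at this e2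
    linarith
  · refine ConvexOn.sup (f := fun v : ℝ => v - y i0) (g := fun _ => 0) ?_
      (convexOn_const _ (convex_Icc 0 1))
    refine ⟨convex_Icc 0 1, fun a _ b _ p q _ _ hpq => le_of_eq ?_⟩
    simp only [smul_eq_mul]
    linear_combination (y i0) * hpq

lemma comp2 {x : ι → ℝ} (hx : Prob x) (r : ℕ) (h : rk x ≤ r) : ∃ z : Fin r → ℝ, Prob z ∧
    (rk x = r → ∀ j, 0 < z j) ∧ ∀ (n : ℕ) (η : Fin n → ℝ) (f : ℝ → ℝ), f 0 = 0 →
      ∑ p, f (tens x η p) = ∑ p, f (tens z η p) := by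
  classical
  obtain ⟨z, h1, h2⟩ := compress x r h
  have z0 : ∀ j, 0 ≤ z j := fun j => by
    rcases h2 j with h | ⟨i, h⟩
    · exact h.ge
    · rw [h]; exact hx.1 i
  refine ⟨z, ⟨z0, ?_⟩, fun hr j => lt_of_le_of_ne (z0 j) fun h0 => ?_, fun n η f hf => ?_⟩
  · have := h1 id rfl
    simp only [id] at this
    rw [← this, hx.2]
  · have h3 := rk_lt j h0.symm
    have h4 := h1 (fun v => if v ≠ 0 then 1 else 0) (by simp)
    rw [sum_boole, sum_boole] at h4
    have h5 : rk x = rk z := by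
      simp only [rk]
      exact_mod_cast h4
    rw [Fintype.card_fin] at h3
    omega
  · simp only [tens, Fintype.sum_prod_type_right]
    exact sum_congr rfl fun j _ => h1 (fun t => f (t * η j)) (by simpa using hf)

theorem result (d e : ℕ) (ψ : Fin d → ℝ) (φ : Fin e → ℝ) (hψ : Prob ψ) (hφ : Prob φ) :
    FlexLOCC ψ φ ↔ CatLOCC ψ φ := by
  constructor
  · rintro ⟨S, hS, hP, hM⟩
    obtain ⟨ψ', p1, p2, p3⟩ := comp2 hψ (max (rk ψ) (rk φ)) (le_max_left _ _)
    obtain ⟨φ', q1, q2, q3⟩ := comp2 hφ (max (rk ψ) (rk φ)) (le_max_right _ _)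
    obtain ⟨n, η, h1, h2⟩ := flex_cata_pos p1 q1 (by
      rcases le_total (rk ψ) (rk φ) with h | h
      · exact Or.inr (q2 (max_eq_right h).symm)
      · exact Or.inl (p2 (max_eq_left h).symm)) ⟨S, hS, hP, fun η hη => by
      obtain ⟨η', h1, h2⟩ := hM η hη
      refine ⟨η', h1, fun f f1 f2 f3 => ?_⟩
      rw [← p3 _ _ f f3, ← q3 _ _ f f3]
      exact maj_of (hψ.tens (hP _ hη)) (hφ.tens (hP _ h1)) h2 f f1 f2 f3⟩
    refine ⟨n, η, h1, of_maj (hψ.tens h1) (hφ.tens h1) fun f f1 f2 f3 => ?_⟩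
    rw [p3 _ _ f f3, q3 _ _ f f3]
    exact h2 f f1 f2 f3
  · rintro ⟨n, η, h1, h2⟩
    refine ⟨{⟨n, η⟩}, Set.singleton_nonempty _, ?_, ?_⟩
    · rintro _ rfl; exact h1
    · rintro _ rfl; exact ⟨_, rfl, h2⟩

end Pool.Agent.Results.MP_261b1b_mp.Full
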